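import Pool.Agent.W363.JQ.Stm

set_option autoImplicit false
open Filter Topology Set Metric

/-! Project JQ: lifting of paths and of holomorphic maps of discs through polynomials. -/

namespace Pool.Agent.W538.JQ

open Pool.Agent.W363.JQ

lemma cvfree_mem {p : Polynomial ℂ} {w : ℂ} (h : CVfree p w) :
    w ∈ ((fun z => p.eval z) '' {k | p.derivative.eval k = 0})ᶜ := by
  rintro ⟨z, hz, rfl⟩
  exact h z hz rfl

theorem plift : S_plift := by
  intro p hp a b c hab hc hcv z hz
  have cov := p.isCoveringMapOn_eval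
  let f : C(ℝ, ℂ) := ⟨Set.IccExtend hab ((Icc a b).domRestrict c), by
    exact Continuous.Icc_extend' (continuousOn_iff_continuous_domRestrict.1 hc)⟩
  have hf : ∀ t ∈ Icc a b, f t = c t := by
    intro t ht
    simp only [f, ContinuousMap.coe_mk]
    rw [Set.IccExtend_of_mem _ _ ht]
    rfl
  have hfs : ∀ t, ∃ t' ∈ Icc a b, f t = c t' := by
    intro t
    exact ⟨projIcc a b hab t, (projIcc a b hab t).2, rfl⟩
  obtain ⟨F, ⟨hF0, hF⟩, -⟩ := cov.existsUnique_continuousMap_lifts f (a₀ := a) (e₀ := z)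
    (by rw [hf a ⟨le_refl a, hab⟩]; exact hz) (fun t => by
      obtain ⟨t', ht', h⟩ := hfs t
      rw [h]
      exact cvfree_mem (hcv t' ht'))
  refine ⟨F, F.continuous.continuousOn, hF0, fun t ht => ?_⟩
  rw [← hf t ht]
  exact congrFun hF t

theorem branch : S_branch := by
  intro p hp x ρ χ hχ hcv w hw z hz
  have cov := p.isCoveringMapOn_eval
  have hρ : 0 < ρ := pos_of_mem_ball hw
  have : LocallyPathConnectedSpace (ball x ρ) := isOpen_ball.locallyPathConnectedSpace
  have : ContractibleSpace (ball x ρ) :=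
    (convex_ball x ρ).contractibleSpace ⟨x, mem_ball_self hρ⟩
  let f : C(ball x ρ, ℂ) := ⟨(ball x ρ).domRestrict χ,
    continuousOn_iff_continuous_domRestrict.1 hχ.continuousOn⟩
  obtain ⟨F, ⟨hF0, hF⟩, -⟩ := cov.existsUnique_continuousMap_lifts f (a₀ := ⟨w, hw⟩) (e₀ := z)
    hz (fun t => cvfree_mem (hcv t.1 t.2))
  classical
  let g : ℂ → ℂ := fun u => if h : u ∈ ball x ρ then F ⟨u, h⟩ else 0
  have hgF : ∀ u (h : u ∈ ball x ρ), g u = F ⟨u, h⟩ := fun u h => dif_pos h
  have hpg : ∀ u ∈ ball x ρ, p.eval (g u) = χ u := by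
    intro u hu
    rw [hgF u hu]
    exact congrFun hF ⟨u, hu⟩
  have hgc : ContinuousOn g (ball x ρ) := by
    rw [continuousOn_iff_continuous_domRestrict]
    convert F.continuous using 1
    ext1 u
    exact hgF u.1 u.2
  refine ⟨g, ?_, (hgF w hw).trans hF0, hpg⟩
  intro u hu
  have hd : p.derivative.eval (g u) ≠ 0 := by
    intro h0
    exact hcv u hu (g u) h0 (hpg u hu)
  have hs := (p.hasStrictDerivAt (g u))
  have hcu : ContinuousAt g u := hgc.continuousAt (isOpen_ball.mem_nhds hu)
  -- the local inverse of `p`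
  have hl := hs.eventually_left_inverse hd
  have h1 : ∀ᶠ v in 𝓝 u, hs.localInverse _ _ _ hd (χ v) = g v := by
    have h2 := hcu.eventually hl
    filter_upwards [h2, isOpen_ball.mem_nhds hu] with v hv hvb
    rw [← hpg v hvb]
    exact hv
  have h3 : DifferentiableAt ℂ (fun v => hs.localInverse _ _ _ hd (χ v)) u := by
    have h4 := (hs.to_localInverse hd).hasDerivAt.differentiableAt
    have h5 : DifferentiableAt ℂ χ u := hχ.differentiableAt (isOpen_ball.mem_nhds hu)
    rw [hpg u hu] at h4
    exact h4.comp u h5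
  have h7 : g =ᶠ[𝓝 u] (fun v => hs.localInverse _ _ _ hd (χ v)) := by
    filter_upwards [h1] with v hv using hv.symm
  exact (h3.congr_of_eventuallyEq h7).differentiableWithinAt

theorem plu : S_plu := by
  intro p S γ γ' hS hγ hγ' heq hd hd' t₀ ht₀ h0 t ht
  -- the set of coincidence
  have key : ∀ s ∈ S, γ s = γ' s → ∀ᶠ r in 𝓝[S] s, γ r = γ' r := by
    intro s hs h
    have hst := p.hasStrictDerivAt (γ s)
    have hl := hst.eventually_left_inverse (hd s hs)
    have h1 := (hγ s hs).eventually hl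
    have h2 := (hγ' s hs).eventually (by rw [← h]; exact hl)
    filter_upwards [h1, h2, self_mem_nhdsWithin] with r hr hr' hrS
    rw [← hr, ← hr']
    exact congrArg _ (heq r hrS)
  by_contra hne
  let A : Set ℝ := {r ∈ S | γ r = γ' r}
  have hsub : S ⊆ A := by
    have : PreconnectedSpace S := isPreconnected_iff_preconnectedSpace.1 hS
    have hcl : IsClosed {r : S | γ r = γ' r} :=
      isClosed_eq (continuousOn_iff_continuous_domRestrict.1 hγ)
        (continuousOn_iff_continuous_domRestrict.1 hγ')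
    have hop : IsOpen {r : S | γ r = γ' r} := by
      rw [isOpen_iff_eventually]
      intro s hs
      have h1 := key s.1 s.2 hs
      rw [nhdsWithin_eq_map_subtype_coe s.2, Filter.eventually_map] at h1
      exact h1
    have hu := IsClopen.eq_univ ⟨hcl, hop⟩ ⟨⟨t₀, ht₀⟩, h0⟩
    intro r hr
    have : (⟨r, hr⟩ : S) ∈ {r : S | γ r = γ' r} := by rw [hu]; trivial
    exact ⟨hr, this⟩
  exact hne (hsub ht).2

end Pool.Agent.W538.JQ
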