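import Pool.Agent.W363.JQ.Stm
import Pool.Agent.H762R2.Top1

set_option autoImplicit false
open Filter Topology Set Metric
open scoped OnePoint

/-! Project JQ: the Riemann mapping theorem for bounded domains with connected complement. -/

namespace Pool.Agent.W538.JQ

open Pool.Agent.W363.JQ Pool.Agent.H762R2

lemma infty_mem_closure {W : Set ℂ} (hb : Bornology.IsBounded W) :
    (∞ : OnePoint ℂ) ∈ closure ((↑) '' Wᶜ : Set (OnePoint ℂ)) := by
  rw [mem_closure_iff_nhds]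
  intro t ht
  obtain ⟨s, hst, hso, hs⟩ := mem_nhds_iff.1 ht
  obtain ⟨hcl, hcpt⟩ := (OnePoint.isOpen_iff_of_mem hs).1 hso
  obtain ⟨R, hR⟩ := (hb.union hcpt.isBounded).subset_closedBall 0
  have hx : ((|R| + 1 : ℝ) : ℂ) ∉ closedBall (0 : ℂ) R := by
    rw [mem_closedBall_zero_iff, Complex.norm_real, Real.norm_of_nonneg (by positivity), not_le]
    linarith [le_abs_self R]
  have hx1 : ((|R| + 1 : ℝ) : ℂ) ∉ W := fun h => hx (hR (Or.inl h))
  have hx2 : ((|R| + 1 : ℝ) : ℂ) ∉ ((↑) ⁻¹' s : Set ℂ)ᶜ := fun h => hx (hR (Or.inr h))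
  refine ⟨((|R| + 1 : ℝ) : ℂ), hst ?_, ⟨_, hx1, rfl⟩⟩
  exact not_not.1 hx2

theorem rmt : S_rmt := by
  intro W z₀ hW hWc hWb hWcc hz₀
  have hsc : IsPreconnected (sc W) := by
    have h1 : IsPreconnected ((↑) '' Wᶜ : Set (OnePoint ℂ)) :=
      hWcc.isPreconnected.image _ OnePoint.continuous_coe.continuousOn
    refine h1.subset_closure ?_ ?_
    · rintro _ ⟨w, hw, rfl⟩
      exact coe_mem_sc.2 hw
    · intro x hx
      induction x using OnePoint.rec with
      | infty => exact infty_mem_closure hWb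
      | coe w => exact subset_closure ⟨w, coe_mem_sc.1 hx, rfl⟩
  have hp := hp_of_sc hW hsc
  have hne : W ≠ univ := by
    rintro rfl
    exact hWcc.nonempty.ne_empty (compl_univ)
  obtain ⟨g, φ, h1, h2, -, h3, h4, h5, h6, h7⟩ := ZFM.J_c4.riemann_inv hW hWc hp hne hz₀
  have h0 : (0 : ℂ) ∈ ball (0 : ℂ) 1 := mem_ball_self one_pos
  refine ⟨φ, g, h4, h1, ?_, fun z hz => ⟨h5 hz, h6 z hz⟩, fun w hw => ⟨h2.mapsTo hw, h7 w hw⟩⟩
  rw [← h3]
  exact h7 0 h0

end Pool.Agent.W538.JQ
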